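import Pool.Agent.Helper13.MLF.Defs
import Pool.Agent.Helper97.MP.Hens
import Pool.Agent.Helper99.MP.L4

/-!
# Project MLF (MP_e66f84_ag), block L4L: the elements of `k*` which are `ℓ`-th powers in `k_v` have
finite index
-/

set_option autoImplicit false

namespace Pool.Agent.MLF

open NumberField IsDedekindDomain
open Pool.Agent.HG (Pr nm)
open Pool.Agent.MPF (StmtHens hens approx99)
open scoped WithZero

section

variable {k : Type} [Field k] [NumberField k]

theorem pow_expand99 {R : Type} [CommRing R] (n Y : R) (m : ℕ) :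
    (1 + n * Y) ^ (m + 1) = 1 + (m + 1 : ℕ) * (n * Y) +
      n ^ 2 * ∑ i ∈ Finset.range m, ((m + 1).choose (i + 2) : R) * n ^ i * Y ^ (i + 2) := by
  rw [add_comm (1 : R), add_pow, Finset.sum_range_succ', Finset.sum_range_succ', Finset.mul_sum]
  simp only [one_pow, mul_one, Nat.choose_zero_right, Nat.cast_one, pow_zero, zero_add, Nat.choose_one_right, pow_one]
  rw [add_comm, add_comm (Finset.sum _ _), ← add_assoc]
  congr 1
  · ring
  · refine Finset.sum_congr rfl fun i _ => ?_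
    rw [mul_pow]
    ring

theorem pow_of_near99 (v : Pr k) {ℓ : ℕ} (hℓ : 0 < ℓ) {X : v.adicCompletion k}
    (h : Valued.v (X - 1) < Valued.v ((ℓ : v.adicCompletion k) ^ 2)) : ∃ y : v.adicCompletion k, X = y ^ ℓ := by
  obtain ⟨m, rfl⟩ : ∃ m, ℓ = m + 1 := ⟨ℓ - 1, by omega⟩
  set n : v.adicCompletion k := ((m + 1 : ℕ) : v.adicCompletion k) with hn
  have hn0 : n ^ 2 ≠ 0 := by
    intro h0
    rw [h0, map_zero] at h
    exact not_lt_zero h
  set z : v.adicCompletion k := (X - 1) / n ^ 2 with hz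
  have hvz : Valued.v z < 1 := by
    rw [hz, map_div₀]
    exact (div_lt_one₀ (zero_lt_iff.2 (by rwa [ne_eq, map_eq_zero]))).2 h
  have hint : ∀ N : ℕ, Valued.v (N : v.adicCompletion k) ≤ 1 := by
    intro N
    induction N with
    | zero => simp
    | succ N ih =>
      push_cast
      exact (Valued.v.map_add _ _).trans (max_le ih (by simp))
  obtain ⟨f, hf⟩ : ∃ f : Polynomial (v.adicCompletion k), f = Polynomial.X +
    (∑ i ∈ Finset.range m, Polynomial.C (((m + 1).choose (i + 2) : v.adicCompletion k) * n ^ i) * Polynomial.X ^ (i + 2)) -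
    Polynomial.C z := ⟨_, rfl⟩
  have hc : ∀ i : ℕ, Valued.v (((m + 1).choose (i + 2) : v.adicCompletion k) * n ^ i) ≤ 1 := by
    intro i
    rw [map_mul, map_pow]
    exact mul_le_one' (hint _) (pow_le_one' (hint _) _)
  have hO : ∃ f₀ : Polynomial (v.adicCompletionIntegers k), f = f₀.map (algebraMap _ _) := by
    refine ⟨Polynomial.X + (∑ i ∈ Finset.range m, Polynomial.C (⟨_, hc i⟩ : v.adicCompletionIntegers k) *
      Polynomial.X ^ (i + 2)) - Polynomial.C ⟨z, hvz.le⟩, ?_⟩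
    rw [hf, Polynomial.map_sub, Polynomial.map_add, Polynomial.map_X, Polynomial.map_sum, Polynomial.map_C]
    simp only [Polynomial.map_mul, Polynomial.map_pow, Polynomial.map_X, Polynomial.map_C]
    rfl
  obtain ⟨y, hy, -⟩ := hens k v f 0 (by
    intro i
    obtain ⟨f₀, hf₀⟩ := hO
    rw [hf₀, Polynomial.coeff_map]
    exact (f₀.coeff i).2) (by simp) (by
    rw [hf]
    simpa [Polynomial.eval_finsetSum] using hvz) (by
    rw [hf]
    simp [Polynomial.eval_finsetSum])
  have hy2 : y + (∑ i ∈ Finset.range m, ((m + 1).choose (i + 2) : v.adicCompletion k) * n ^ i * y ^ (i + 2)) = z := by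
    rw [hf] at hy
    have h1 : y + (∑ i ∈ Finset.range m, ((m + 1).choose (i + 2) : v.adicCompletion k) * n ^ i * y ^ (i + 2)) - z = 0 := by
      simpa [Polynomial.eval_finsetSum] using hy
    exact sub_eq_zero.1 h1
  have hX : X = 1 + n ^ 2 * z := by
    rw [hz, mul_div_cancel₀ _ hn0]
    ring
  refine ⟨1 + n * y, ?_⟩
  rw [pow_expand99, hX, ← hy2, ← hn]
  ring

/-- block L4L -/
theorem l4L : StmtL4L := by
  classical
  intro k _ _ ℓ hℓ v
  let W : Subgroup kˣ :=
    { carrier := {w | ∃ z : v.adicCompletion k, algebraMap k (v.adicCompletion k) (w : k) = z ^ ℓ}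
      mul_mem' := by
        rintro a b ⟨x, hx⟩ ⟨y, hy⟩
        exact ⟨x * y, by rw [Units.val_mul, map_mul, hx, hy, mul_pow]⟩
      one_mem' := ⟨1, by rw [Units.val_one, map_one, one_pow]⟩
      inv_mem' := by
        rintro a ⟨x, hx⟩
        exact ⟨x⁻¹, by rw [Units.val_inv_eq_inv_val, map_inv₀, hx, inv_pow]⟩ }
  have hval : ∀ x : k, Valued.v (algebraMap k (v.adicCompletion k) x) = v.valuation k x := fun x =>
    v.valuedAdicCompletion_eq_valuation' x
  refine ⟨W, ?_, fun w hw => hw⟩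
  -- a bound for the valuation of `ℓ ^ 2`
  have h40 : v.valuation k ((ℓ : k) ^ 2) ≠ 0 := by
    rw [ne_eq, map_eq_zero]
    exact pow_ne_zero 2 (by exact_mod_cast hℓ.ne')
  obtain ⟨z4, hz4⟩ := WithZero.ne_zero_iff_exists.1 h40
  obtain ⟨N, hN⟩ : ∃ N : ℕ, WithZero.exp (-(N : ℤ)) < v.valuation k ((ℓ : k) ^ 2) := by
    refine ⟨(Multiplicative.toAdd z4).natAbs + 1, ?_⟩
    rw [← hz4]
    rw [WithZero.exp]
    rw [WithZero.coe_lt_coe]
    change Multiplicative.ofAdd (-(((Multiplicative.toAdd z4).natAbs + 1 : ℕ) : ℤ)) < z4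
    rw [← Multiplicative.toAdd_lt, toAdd_ofAdd]
    omega
  obtain ⟨π, hπ⟩ := v.valuation_exists_uniformizer k
  have hπ0 : π ≠ 0 := by
    rintro rfl
    rw [map_zero] at hπ
    exact WithZero.exp_ne_zero hπ.symm
  have key : ∀ a : kˣ, ∃ (z : ℤ) (y : 𝓞 k), v.valuation k ((a : k) * π ^ z) = 1 ∧
      v.valuation k ((a : k) * π ^ z - algebraMap (𝓞 k) k y) ≤ WithZero.exp (-(N : ℤ)) := by
    intro a
    have ha0 : v.valuation k (a : k) ≠ 0 := by
      rw [ne_eq, map_eq_zero]
      exact a.ne_zero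
    obtain ⟨z, hz⟩ := WithZero.ne_zero_iff_exists.1 ha0
    have h1 : v.valuation k ((a : k) * π ^ (Multiplicative.toAdd z)) = 1 := by
      have g : ((z : Multiplicative ℤ) : ℤᵐ⁰) = WithZero.exp (Multiplicative.toAdd z) := rfl
      rw [map_mul, map_zpow₀, hπ, ← hz, ← WithZero.exp_zsmul, g, ← WithZero.exp_add]
      simp
    obtain ⟨y, hy⟩ := approx99 v N h1.le
    exact ⟨_, y, h1, hy⟩
  choose z y h1 h2 using key
  have hfin : Finite (𝓞 k ⧸ v.asIdeal ^ N) := by
    have hne : v.asIdeal ^ N ≠ ⊥ := pow_ne_zero N v.ne_bot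
    exact Ideal.finiteQuotientOfFreeOfNeBot _ hne
  have : NeZero ℓ := ⟨hℓ.ne'⟩
  let f : kˣ → ZMod ℓ × (𝓞 k ⧸ v.asIdeal ^ N) := fun a => ((z a : ZMod ℓ), Ideal.Quotient.mk _ (y a))
  have hf : ∀ a b : kˣ, f a = f b → a⁻¹ * b ∈ W := by
    intro a b hab
    have e1 : ((z a : ℤ) : ZMod ℓ) = z b := congrArg Prod.fst hab
    have e2 : Ideal.Quotient.mk (v.asIdeal ^ N) (y a) = Ideal.Quotient.mk (v.asIdeal ^ N) (y b) := congrArg Prod.snd hab
    rw [Ideal.Quotient.eq] at e2
    have e3 : v.valuation k (algebraMap (𝓞 k) k (y a) - algebraMap (𝓞 k) k (y b)) ≤ WithZero.exp (-(N : ℤ)) := by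
      rw [← map_sub, v.valuation_of_algebraMap]
      exact (v.intValuation_le_pow_iff_mem _ N).2 e2
    set A : k := (a : k) * π ^ z a with hA
    set B : k := (b : k) * π ^ z b with hB
    have e4 : v.valuation k (B - A) ≤ WithZero.exp (-(N : ℤ)) := by
      have : B - A = (B - algebraMap (𝓞 k) k (y b)) - (A - algebraMap (𝓞 k) k (y a)) - (algebraMap (𝓞 k) k (y a) - algebraMap (𝓞 k) k (y b)) := by ring
      rw [this]
      exact (v.valuation k).map_sub_le ((v.valuation k).map_sub_le (h2 b) (h2 a)) e3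
    have hA0 : A ≠ 0 := mul_ne_zero a.ne_zero (zpow_ne_zero _ hπ0)
    have e5 : v.valuation k (B / A - 1) ≤ WithZero.exp (-(N : ℤ)) := by
      have : B / A - 1 = (B - A) / A := by
        field_simp
      rw [this, map_div₀, h1 a, div_one]
      exact e4
    obtain ⟨r, hr⟩ : ∃ r : v.adicCompletion k, algebraMap k (v.adicCompletion k) (B / A) = r ^ ℓ := by
      apply pow_of_near99 v hℓ
      have g1 : algebraMap k (v.adicCompletion k) (B / A) - 1 = algebraMap k (v.adicCompletion k) (B / A - 1) := by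
        rw [map_sub, map_one]
      have g2 : (ℓ : v.adicCompletion k) ^ 2 = algebraMap k (v.adicCompletion k) ((ℓ : k) ^ 2) := by
        rw [map_pow, map_natCast]
      rw [g1, g2, hval, hval]
      exact lt_of_le_of_lt e5 hN
    obtain ⟨m, hm⟩ : ∃ m : ℤ, z a - z b = m * ℓ := by
      have g : ((z a - z b : ℤ) : ZMod ℓ) = 0 := by
        rw [Int.cast_sub, e1, sub_self]
      rw [ZMod.intCast_zmod_eq_zero_iff_dvd] at g
      obtain ⟨m, hm⟩ := g
      exact ⟨m, by rw [hm]; ring⟩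
    have e7 : ((a⁻¹ * b : kˣ) : k) = B / A * (π ^ m) ^ ℓ := by
      have g1 : (π ^ m) ^ ℓ = π ^ z a * (π ^ z b)⁻¹ := by
        rw [← zpow_natCast, ← zpow_mul, ← hm, zpow_sub₀ hπ0, div_eq_mul_inv]
      rw [g1, hA, hB, Units.val_mul, Units.val_inv_eq_inv_val]
      have g2 : (a : k) ≠ 0 := a.ne_zero
      have g3 : π ^ z a ≠ 0 := zpow_ne_zero _ hπ0
      have g4 : π ^ z b ≠ 0 := zpow_ne_zero _ hπ0
      field_simp
    exact ⟨r * algebraMap k (v.adicCompletion k) (π ^ m), by rw [e7, map_mul, hr, map_pow, mul_pow]⟩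
  have hq : Finite (kˣ ⧸ W) := by
    refine Finite.of_injective (fun q : kˣ ⧸ W => f (Quotient.out q)) ?_
    intro q q' hqq
    have g := hf _ _ hqq
    have g1 := (QuotientGroup.eq (s := W)).2 g
    rw [← QuotientGroup.out_eq' q, ← QuotientGroup.out_eq' q']
    exact g1
  exact Subgroup.finiteIndex_of_finite_quotient

end

end Pool.Agent.MLF
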